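import Pool.Agent.Helper123.PLP.Geo

/-!
# Points, lines and planes: the local inequality

For a linear space with planes, a function `d` on the points and a line `l` with `k` points put
`wt d x l = 1 / k + d x - (mean of d on l)`.  For every plane `h`
`∑_{x ∈ h} ((∑_{l ∋ x, l ⊆ h} wt d x l)² - ∑_{l ∋ x, l ⊆ h} (wt d x l)²) ≥ 3 / 2`,
with strict inequality if `h` has at least four points.
-/

set_option autoImplicit false
set_option linter.unusedSectionVars false

namespace Pool.Agent.K1H42.PLP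

open Finset Pool.Agent.Helper123.PLP

variable {P : Type*} [Fintype P] [DecidableEq P] (G : Geo P)

/-- the mean of `d` on `l` -/
noncomputable def mean (d : P → ℝ) (l : Finset P) : ℝ := (∑ y ∈ l, d y) / l.card

/-- the weight of the incidence of `x` and `l` -/
noncomputable def wt (d : P → ℝ) (x : P) (l : Finset P) : ℝ := 1 / l.card + (d x - mean d l)

lemma card_pos' {l : Finset P} (hl : l ∈ G.L) : (0 : ℝ) < l.card := by
  have := G.two_le l hl
  have : 0 < l.card := by omega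
  exact_mod_cast this

lemma two_le' {l : Finset P} (hl : l ∈ G.L) : (2 : ℝ) ≤ l.card := by
  exact_mod_cast G.two_le l hl

lemma sum_sub_mean (d : P → ℝ) {l : Finset P} (hl : l ∈ G.L) :
    ∑ x ∈ l, (d x - mean d l) = 0 := by
  have h0 := card_pos' G hl
  rw [sum_sub_distrib, sum_const, nsmul_eq_mul]
  unfold mean
  field_simp
  ring

lemma sum_wt (d : P → ℝ) {l : Finset P} (hl : l ∈ G.L) : ∑ x ∈ l, wt d x l = 1 := by
  have h0 := card_pos' G hl
  unfold wt
  rw [sum_add_distrib, sum_sub_mean G d hl, sum_const, nsmul_eq_mul]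
  field_simp
  ring

/-- shifting `d` by a constant does not change the weights -/
lemma wt_eq (d : P → ℝ) (γ : ℝ) (x : P) {l : Finset P} (hl : l ∈ G.L) :
    wt d x l = (d x + γ) - ((∑ y ∈ l, (d y + γ)) - 1) / l.card := by
  have h0 := card_pos' G hl
  unfold wt mean
  rw [sum_add_distrib, sum_const, nsmul_eq_mul]
  field_simp
  ring

/-- interchanging points and lines in a plane -/
lemma swap_plane (h : Finset P) (f : P → Finset P → ℝ) :
    ∑ x ∈ h, ∑ l ∈ inn (G.Lv x) h, f x l = ∑ l ∈ inn G.L h, ∑ x ∈ l, f x l := by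
  apply Finset.sum_comm'
  intro x l
  simp only [mem_inn, G.mem_Lv]
  constructor
  · rintro ⟨_, ⟨h1, h2⟩, h3⟩
    exact ⟨h2, h1, h3⟩
  · rintro ⟨h2, h1, h3⟩
    exact ⟨h3 h2, ⟨h1, h2⟩, h3⟩

/-- interchanging points and lines -/
lemma swap_all (f : P → Finset P → ℝ) :
    ∑ x, ∑ l ∈ G.Lv x, f x l = ∑ l ∈ G.L, ∑ x ∈ l, f x l := by
  apply Finset.sum_comm'
  intro x l
  simp only [G.mem_Lv, mem_univ, true_and]
  tauto

/-- the points of a closed set different from `v` are partitioned by the lines through `v` -/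
lemma sum_star (S : Finset P) (hS : ∀ l ∈ G.L, ∀ x y : P, x ≠ y → x ∈ l → y ∈ l →
    x ∈ S → y ∈ S → l ⊆ S) (v : P) (hv : v ∈ S) (f : P → ℝ) :
    ∑ l ∈ inn (G.Lv v) S, ((∑ y ∈ l, f y) - f v) = (∑ y ∈ S, f y) - f v := by
  have h1 : S.erase v = (inn (G.Lv v) S).biUnion (fun l => l.erase v) := by
    ext x
    simp only [mem_erase, mem_biUnion, mem_inn, G.mem_Lv]
    constructor
    · rintro ⟨hx, hxS⟩
      obtain ⟨l, hl, hvl, hxl⟩ := G.ex_line v x (Ne.symm hx)
      exact ⟨l, ⟨⟨hl, hvl⟩, hS l hl v x (Ne.symm hx) hvl hxl hv hxS⟩, hx, hxl⟩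
    · rintro ⟨l, ⟨⟨hl, hvl⟩, hlS⟩, hx, hxl⟩
      exact ⟨hx, hlS hxl⟩
  have h2 : ∑ y ∈ S.erase v, f y = ∑ l ∈ inn (G.Lv v) S, ∑ y ∈ l.erase v, f y := by
    rw [h1]
    apply sum_biUnion
    intro l hl l' hl' hne
    change Disjoint (l.erase v) (l'.erase v)
    rw [Finset.disjoint_left]
    intro x hx hx'
    simp only [mem_erase] at hx hx'
    simp only [mem_coe, mem_inn, G.mem_Lv] at hl hl'
    exact hne (G.uniq_line l hl.1.1 l' hl'.1.1 x v hx.1 hx.2 hl.1.2 hx'.2 hl'.1.2)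
  have h3 : ∀ (A : Finset P), v ∈ A → ∑ y ∈ A.erase v, f y = (∑ y ∈ A, f y) - f v := by
    intro A hA
    rw [← Finset.add_sum_erase A f hA]
    ring
  rw [← h3 S hv, h2]
  apply sum_congr rfl
  intro l hl
  simp only [mem_inn, G.mem_Lv] at hl
  rw [h3 l hl.1.2]

/-- sum of the squares of the line sums in a plane -/
lemma sum_sq_lines {h : Finset P} (hh : h ∈ G.H) (H : P → ℝ) :
    ∑ l ∈ inn G.L h, ((∑ y ∈ l, H y) ^ 2 - ∑ x ∈ l, H x ^ 2) =
      (∑ x ∈ h, H x) ^ 2 - ∑ x ∈ h, H x ^ 2 := by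
  have e1 : ∀ l : Finset P, (∑ y ∈ l, H y) ^ 2 - ∑ x ∈ l, H x ^ 2 =
      ∑ x ∈ l, H x * ((∑ y ∈ l, H y) - H x) := by
    intro l
    simp only [mul_sub, sum_sub_distrib, ← sum_mul]
    rw [sq]
    congr 1
    apply sum_congr rfl
    intro x _
    rw [sq]
  rw [e1 h]
  calc ∑ l ∈ inn G.L h, ((∑ y ∈ l, H y) ^ 2 - ∑ x ∈ l, H x ^ 2)
      = ∑ l ∈ inn G.L h, ∑ x ∈ l, H x * ((∑ y ∈ l, H y) - H x) := sum_congr rfl fun l _ => e1 l
    _ = ∑ x ∈ h, ∑ l ∈ inn (G.Lv x) h, H x * ((∑ y ∈ l, H y) - H x) := (swap_plane G h _).symm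
    _ = ∑ x ∈ h, H x * ((∑ y ∈ h, H y) - H x) := by
        apply sum_congr rfl
        intro x hx
        rw [← mul_sum, sum_star G h (G.closed h hh) x hx H]

/-- the weighted line sums in a plane -/
lemma sum_bb_lines {h : Finset P} (hh : h ∈ G.H) (H : P → ℝ) :
    ∑ l ∈ inn G.L h, bb l * (∑ y ∈ l, H y) = ((h.card : ℝ) - 1) * ∑ x ∈ h, H x := by
  calc ∑ l ∈ inn G.L h, bb l * (∑ y ∈ l, H y)
      = ∑ l ∈ inn G.L h, ∑ x ∈ l, bb l * H x := sum_congr rfl fun l _ => by rw [mul_sum]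
    _ = ∑ x ∈ h, ∑ l ∈ inn (G.Lv x) h, bb l * H x := (swap_plane G h _).symm
    _ = ∑ x ∈ h, ((h.card : ℝ) - 1) * H x := by
        apply sum_congr rfl
        intro x hx
        rw [← sum_mul, G.sum_bb_plane hh x hx]
    _ = _ := by rw [← mul_sum]

lemma sum_bb_card {h : Finset P} (hh : h ∈ G.H) :
    ∑ l ∈ inn G.L h, (l.card : ℝ) * bb l = ((h.card : ℝ) - 1) * h.card := by
  have := sum_bb_lines G hh (fun _ => 1)
  simp only [sum_const, nsmul_eq_mul, mul_one] at this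
  rw [← this]
  apply sum_congr rfl
  intro l _
  ring

/-- the local functional of a plane -/
noncomputable def FF (d : P → ℝ) (h : Finset P) : ℝ :=
  ∑ x ∈ h, ((∑ l ∈ inn (G.Lv x) h, wt d x l) ^ 2 - ∑ l ∈ inn (G.Lv x) h, wt d x l ^ 2)

lemma FF_ge {h : Finset P} (hh : h ∈ G.H) (h2 : 2 ≤ h.card) (d : P → ℝ) :
    ((inn G.L h).card : ℝ) ^ 2 / ((h.card : ℝ) - 1) - ∑ l ∈ inn G.L h, 1 / bb l ≤ FF G d h := by
  have hN : (2 : ℝ) ≤ h.card := by exact_mod_cast h2
  have hN0 : (0 : ℝ) < h.card := by linarith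
  set t : ℝ := ((inn G.L h).card : ℝ) with ht
  set γ : ℝ := (t - ∑ x ∈ h, d x) / h.card with hγ
  set H : P → ℝ := fun x => d x + γ with hH
  have hHs : ∑ x ∈ h, H x = t := by
    rw [hH, sum_add_distrib, sum_const, nsmul_eq_mul, hγ]
    field_simp
    ring
  set m : Finset P → ℝ := fun l => ((∑ y ∈ l, H y) - 1) / l.card with hm
  have hw : ∀ x, ∀ l ∈ G.L, wt d x l = H x - m l := fun x l hl => wt_eq G d γ x hl
  -- step 1
  have s1 : (∑ l ∈ inn G.L h, ∑ x ∈ l, (H x ^ 2 - m l ^ 2)) - ∑ x ∈ h, H x ^ 2 ≤ FF G d h := by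
    rw [← swap_plane G h (fun x l => H x ^ 2 - m l ^ 2), ← sum_sub_distrib]
    unfold FF
    apply sum_le_sum
    intro x hx
    have e : ∑ l ∈ inn (G.Lv x) h, (H x ^ 2 - m l ^ 2) =
        2 * H x * (∑ l ∈ inn (G.Lv x) h, wt d x l) - ∑ l ∈ inn (G.Lv x) h, wt d x l ^ 2 := by
      rw [mul_sum, ← sum_sub_distrib]
      apply sum_congr rfl
      intro l hl
      rw [mem_inn, G.mem_Lv] at hl
      rw [hw x l hl.1.1]
      ring
    rw [e]
    nlinarith [sq_nonneg ((∑ l ∈ inn (G.Lv x) h, wt d x l) - H x)]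
  -- step 2
  have s2 : (∑ l ∈ inn G.L h, ∑ x ∈ l, (H x ^ 2 - m l ^ 2)) - ∑ x ∈ h, H x ^ 2 =
      (∑ l ∈ inn G.L h, ((∑ y ∈ l, H y) ^ 2 - ((∑ y ∈ l, H y) - 1) ^ 2 / l.card)) - t ^ 2 := by
    have e1 := sum_sq_lines G hh H
    rw [hHs] at e1
    have e2 : ∀ l ∈ inn G.L h, ∑ x ∈ l, (H x ^ 2 - m l ^ 2) =
        ((∑ y ∈ l, H y) ^ 2 - ((∑ y ∈ l, H y) - 1) ^ 2 / l.card) -
          ((∑ y ∈ l, H y) ^ 2 - ∑ x ∈ l, H x ^ 2) := by
      intro l hl
      rw [mem_inn] at hl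
      have h0 := card_pos' G hl.1
      rw [sum_sub_distrib, sum_const, nsmul_eq_mul, hm]
      simp only
      field_simp
      ring
    rw [sum_congr rfl e2, sum_sub_distrib, e1]
    ring
  -- step 3
  set θ : ℝ := t / ((h.card : ℝ) - 1) with hθ
  have s3 : ∑ l ∈ inn G.L h, (2 * θ * (bb l * ∑ y ∈ l, H y) - θ ^ 2 * ((l.card : ℝ) * bb l)
      + 2 * θ - 1 / bb l) ≤
      ∑ l ∈ inn G.L h, ((∑ y ∈ l, H y) ^ 2 - ((∑ y ∈ l, H y) - 1) ^ 2 / l.card) := by
    apply sum_le_sum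
    intro l hl
    rw [mem_inn] at hl
    have h0 := card_pos' G hl.1
    have h1 := G.bb_ge hl.1
    have hk : (l.card : ℝ) = bb l + 1 := by unfold bb; ring
    set Z : ℝ := ∑ y ∈ l, H y with hZ
    set b : ℝ := bb l with hb
    have hb0 : (0 : ℝ) < b := by linarith
    rw [hk]
    have hpos : 0 ≤ (b / (b + 1)) * (Z - (b + 1) * θ + 1 / b) ^ 2 := by positivity
    have heq : (Z ^ 2 - (Z - 1) ^ 2 / (b + 1)) - (2 * θ * (b * Z) - θ ^ 2 * ((b + 1) * b)
      + 2 * θ - 1 / b) = (b / (b + 1)) * (Z - (b + 1) * θ + 1 / b) ^ 2 := by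
      field_simp
      ring
    linarith
  have s4 : ∑ l ∈ inn G.L h, (2 * θ * (bb l * ∑ y ∈ l, H y) - θ ^ 2 * ((l.card : ℝ) * bb l)
      + 2 * θ - 1 / bb l) = t ^ 2 + t ^ 2 / ((h.card : ℝ) - 1) - ∑ l ∈ inn G.L h, 1 / bb l := by
    rw [sum_sub_distrib, sum_add_distrib, sum_sub_distrib, ← mul_sum, ← mul_sum,
      sum_bb_lines G hh H, sum_bb_card G hh, hHs, sum_const, nsmul_eq_mul, ← ht, hθ]
    have hN1 : (h.card : ℝ) - 1 ≠ 0 := by linarith
    field_simp
    ring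
  linarith

/-- the numerical consequence of the theorem of de Bruijn and Erdős -/
lemma num_plane {h : Finset P} (hh : h ∈ G.H) :
    3 / 2 ≤ ((inn G.L h).card : ℝ) ^ 2 / ((h.card : ℝ) - 1) - ∑ l ∈ inn G.L h, 1 / bb l ∧
    (4 ≤ h.card →
      3 / 2 < ((inn G.L h).card : ℝ) ^ 2 / ((h.card : ℝ) - 1) - ∑ l ∈ inn G.L h, 1 / bb l) ∧
    3 ≤ h.card := by
  obtain ⟨l0, hl0, hl0h, x0, hx0, hx0l⟩ := G.nondeg h hh
  have h3 : 3 ≤ h.card := by
    have a1 := G.two_le l0 hl0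
    have a2 : (insert x0 l0).card = l0.card + 1 := card_insert_of_notMem hx0l
    have a3 : insert x0 l0 ⊆ h := by
      intro y hy
      rw [mem_insert] at hy
      rcases hy with rfl | hy
      · exact hx0
      · exact hl0h hy
    have a4 := card_le_card a3
    omega
  have hN : (3 : ℝ) ≤ h.card := by exact_mod_cast h3
  have hdbe : (h.card : ℝ) ≤ ((inn G.L h).card : ℝ) := by exact_mod_cast G.dBE hh
  set N : ℝ := (h.card : ℝ) with hNdef
  set t : ℝ := ((inn G.L h).card : ℝ) with ht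
  have hone : ∀ l ∈ inn G.L h, 1 / bb l ≤ 1 := by
    intro l hl
    rw [mem_inn] at hl
    have := G.bb_ge hl.1
    rw [div_le_one (by linarith)]
    exact this
  by_cases hall : ∀ l ∈ inn G.L h, l.card = 2
  · -- all lines have two points
    have e1 : ∑ l ∈ inn G.L h, 1 / bb l = t := by
      have : ∀ l ∈ inn G.L h, 1 / bb l = 1 := by
        intro l hl
        unfold bb
        rw [hall l hl]
        norm_num
      rw [sum_congr rfl this, sum_const, nsmul_eq_mul, mul_one]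
    have e2 : 2 * t = (N - 1) * N := by
      have := sum_bb_card G hh
      have e3 : ∀ l ∈ inn G.L h, (l.card : ℝ) * bb l = 2 := by
        intro l hl
        unfold bb
        rw [hall l hl]
        norm_num
      rw [sum_congr rfl e3, sum_const, nsmul_eq_mul] at this
      linarith
    have e4 : t = (N - 1) * N / 2 := by linarith
    have e5 : t ^ 2 / (N - 1) - t = N * (N - 1) * (N - 2) / 4 := by
      rw [e4]
      have : N - 1 ≠ 0 := by linarith
      field_simp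
      ring
    rw [e1, e5]
    refine ⟨?_, ?_, h3⟩
    · nlinarith [mul_nonneg (show (0 : ℝ) ≤ N - 3 by linarith) (show (0 : ℝ) ≤ N by linarith),
        mul_nonneg (mul_nonneg (show (0 : ℝ) ≤ N - 3 by linarith) (show (0 : ℝ) ≤ N by linarith))
          (show (0 : ℝ) ≤ N by linarith)]
    · intro h4
      have hN4 : (4 : ℝ) ≤ N := by rw [hNdef]; exact_mod_cast h4
      nlinarith [mul_nonneg (show (0 : ℝ) ≤ N - 4 by linarith) (show (0 : ℝ) ≤ N by linarith),
        mul_nonneg (mul_nonneg (show (0 : ℝ) ≤ N - 4 by linarith) (show (0 : ℝ) ≤ N by linarith))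
          (show (0 : ℝ) ≤ N by linarith)]
  · -- some line has at least three points
    push Not at hall
    obtain ⟨l1, hl1, hl1c⟩ := hall
    have hl1' := hl1
    rw [mem_inn] at hl1'
    have hk3 : (3 : ℝ) ≤ l1.card := by
      have := G.two_le l1 hl1'.1
      have : 3 ≤ l1.card := by omega
      exact_mod_cast this
    have hb2 : 1 / bb l1 ≤ 1 / 2 := by
      unfold bb
      apply one_div_le_one_div_of_le <;> linarith
    have e1 : ∑ l ∈ inn G.L h, 1 / bb l ≤ t - 1 / 2 := by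
      rw [← Finset.add_sum_erase _ _ hl1]
      have e2 : ∑ l ∈ (inn G.L h).erase l1, 1 / bb l ≤ t - 1 := by
        have e3 : ∑ l ∈ (inn G.L h).erase l1, 1 / bb l ≤ ∑ l ∈ (inn G.L h).erase l1, (1 : ℝ) :=
          sum_le_sum fun l hl => hone l (mem_of_mem_erase hl)
        rw [sum_const, nsmul_eq_mul, mul_one, card_erase_of_mem hl1,
          Nat.cast_sub (card_pos.mpr ⟨l1, hl1⟩)] at e3
        simpa using e3
      linarith
    have e4 : t + 1 < t ^ 2 / (N - 1) := by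
      rw [lt_div_iff₀ (by linarith)]
      nlinarith
    refine ⟨by linarith, fun _ => by linarith, h3⟩

/-- **the local inequality** -/
theorem local_ge {h : Finset P} (hh : h ∈ G.H) (d : P → ℝ) : 3 / 2 ≤ FF G d h :=
  (num_plane G hh).1.trans (FF_ge G hh (by have := (num_plane G hh).2.2; omega) d)

theorem local_gt {h : Finset P} (hh : h ∈ G.H) (h4 : 4 ≤ h.card) (d : P → ℝ) :
    3 / 2 < FF G d h :=
  ((num_plane G hh).2.1 h4).trans_le (FF_ge G hh (by omega) d)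

end Pool.Agent.K1H42.PLP
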