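import Pool.Agent.K1H42.PLP.Mt

/-!
# Points, lines and planes of a finite matroid
-/

set_option autoImplicit false
set_option linter.unusedSectionVars false

namespace Pool.Agent.K1H42.PLP

open Finset Pool.Agent.Helper123.PLP Mt

variable {α : Type*} (M : Matroid α) [M.Finite]

/-- there is a flat of rank three -/
lemma exists_plane (hr : 3 ≤ M.eRank) : (flats M 3).Nonempty := by
  obtain ⟨B, hB⟩ := M.exists_isBase
  rw [← hB.encard_eq_eRank] at hr
  obtain ⟨J, hJB, hJ⟩ := Set.exists_subset_encard_eq hr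
  refine ⟨M.closure J, (mem_flats M).mpr ⟨M.isFlat_closure J, ?_⟩⟩
  rw [rkn_closure, ← rkn_eq_iff, (hB.indep.subset hJB).eRk_eq_encard, hJ]
  rfl

lemma three_points {K : Set α} (hK : K ∈ flats M 3) : 3 ≤ Fintype.card (Pt M) := by
  have hKG : pts M K ∈ (toGeo M).H := by
    classical
    exact Finset.mem_image.mpr ⟨K, hK, rfl⟩
  have := (num_plane (toGeo M) hKG).2.2
  exact this.trans (card_le_univ _)

/-- the main inequality for the flats of a finite matroid -/
theorem flats_ineq (hr : 3 ≤ M.eRank) :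
    (3 : ℝ) ≤ (flats M 1).card ∧
    3 * ((flats M 1).card : ℝ) * (((flats M 1).card : ℝ) - 1) /
      (2 * (((flats M 1).card : ℝ) - 2)) * ((flats M 3).card : ℝ) ≤ ((flats M 2).card : ℝ) ^ 2 ∧
    ((∃ K ∈ flats M 3, 4 ≤ (pts M K).card) →
      3 * ((flats M 1).card : ℝ) * (((flats M 1).card : ℝ) - 1) /
        (2 * (((flats M 1).card : ℝ) - 2)) * ((flats M 3).card : ℝ) <
          ((flats M 2).card : ℝ) ^ 2) := by
  classical
  obtain ⟨K, hK⟩ := exists_plane M hr
  have hn := three_points M hK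
  have h := main_geo (toGeo M) hn
  rw [card_L, card_H, card_pt] at h
  rw [card_pt] at hn
  refine ⟨by exact_mod_cast hn, h.1, ?_⟩
  rintro ⟨K', hK', h4⟩
  exact h.2 ⟨pts M K', Finset.mem_image.mpr ⟨K', hK', rfl⟩, h4⟩

/-- the number of points in a flat -/
lemma card_pts (K : Set α) :
    {x : Set α | M.IsFlat x ∧ M.eRk x = 1 ∧ x ⊆ K}.ncard = (pts M K).card := by
  have h : {x : Set α | M.IsFlat x ∧ M.eRk x = 1 ∧ x ⊆ K} =
      Subtype.val '' ((pts M K : Finset (Pt M)) : Set (Pt M)) := by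
    ext x
    simp only [Set.mem_ofPred_eq, Set.mem_image, Finset.mem_coe, mem_pts]
    constructor
    · rintro ⟨h1, h2, h3⟩
      have h2' : rkn M x = 1 := by
        rw [← rkn_eq_iff]; exact_mod_cast h2
      exact ⟨⟨x, h1, h2'⟩, h3, rfl⟩
    · rintro ⟨p, hp, rfl⟩
      refine ⟨p.2.1, ?_, hp⟩
      have := (rkn_eq_iff M (p : Set α) 1).mpr p.2.2
      exact_mod_cast this
  rw [h, Set.ncard_image_of_injective _ Subtype.val_injective, Set.ncard_coe_finset]

lemma card_pts_plane {K : Set α} (hK : K ∈ flats M 3) : 3 ≤ (pts M K).card := by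
  have hKG : pts M K ∈ (toGeo M).H := by
    classical
    exact Finset.mem_image.mpr ⟨K, hK, rfl⟩
  exact (num_plane (toGeo M) hKG).2.2

/-- **points, lines and planes of a finite matroid** -/
theorem plp (hr : 3 ≤ M.eRank) :
    (3 : ℝ) ≤ {x : Set α | M.IsFlat x ∧ M.eRk x = 1}.ncard ∧
    3 * ({x : Set α | M.IsFlat x ∧ M.eRk x = 1}.ncard : ℝ) *
      (({x : Set α | M.IsFlat x ∧ M.eRk x = 1}.ncard : ℝ) - 1) /
      (2 * (({x : Set α | M.IsFlat x ∧ M.eRk x = 1}.ncard : ℝ) - 2)) *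
      ({p : Set α | M.IsFlat p ∧ M.eRk p = 3}.ncard : ℝ) ≤
        ({l : Set α | M.IsFlat l ∧ M.eRk l = 2}.ncard : ℝ) ^ 2 ∧
    (({l : Set α | M.IsFlat l ∧ M.eRk l = 2}.ncard : ℝ) ^ 2 =
      3 * ({x : Set α | M.IsFlat x ∧ M.eRk x = 1}.ncard : ℝ) *
      (({x : Set α | M.IsFlat x ∧ M.eRk x = 1}.ncard : ℝ) - 1) /
      (2 * (({x : Set α | M.IsFlat x ∧ M.eRk x = 1}.ncard : ℝ) - 2)) *
      ({p : Set α | M.IsFlat p ∧ M.eRk p = 3}.ncard : ℝ) →
      ∀ p : Set α, M.IsFlat p → M.eRk p = 3 →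
        {x : Set α | M.IsFlat x ∧ M.eRk x = 1 ∧ x ⊆ p}.ncard = 3) := by
  have h1 := card_flats M 1
  have h2 := card_flats M 2
  have h3 := card_flats M 3
  rw [Nat.cast_one] at h1
  rw [Nat.cast_ofNat] at h2 h3
  rw [h1, h2, h3]
  obtain ⟨a, b, c⟩ := flats_ineq M hr
  refine ⟨a, b, fun heq p hp hp3 => ?_⟩
  rw [card_pts M p]
  have hpf : p ∈ flats M 3 := by
    rw [mem_flats, ← rkn_eq_iff]
    exact ⟨hp, by exact_mod_cast hp3⟩
  have h4 := card_pts_plane M hpf
  by_contra hne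
  have h5 : 4 ≤ (pts M p).card := by omega
  have := c ⟨p, hpf, h5⟩
  linarith

/-- in a simple matroid the elements are the flats of rank one -/
lemma simple_closure (hs : ∀ x ∈ M.E, ∀ y ∈ M.E, M.Indep {x, y}) {x : α} (hx : x ∈ M.E) :
    M.closure {x} = {x} := by
  have hi : M.Indep {x} := by simpa using hs x hx x hx
  apply Set.Subset.antisymm
  · intro y hy
    have hyE : y ∈ M.E := M.closure_subset_ground _ hy
    rw [hi.mem_closure_iff] at hy
    rcases hy with h | h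
    · exact absurd (hs y hyE x hx) h.not_indep
    · exact h
  · exact M.subset_closure {x} (by simpa using hx)

lemma simple_point (hs : ∀ x ∈ M.E, ∀ y ∈ M.E, M.Indep {x, y}) (S : Set α) :
    M.IsFlat S ∧ M.eRk S = 1 ↔ ∃ x ∈ M.E, {x} = S := by
  constructor
  · rintro ⟨h1, h2⟩
    have hne : S.Nonempty := by
      rw [Set.nonempty_iff_ne_empty]
      rintro rfl
      simp at h2
    obtain ⟨x, hx⟩ := hne
    have hxE := h1.subset_ground hx
    have hi : M.Indep {x} := by simpa using hs x hxE x hxE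
    refine ⟨x, hxE, ?_⟩
    have h3 : M.IsFlat {x} := by
      rw [← simple_closure M hs hxE]
      exact M.isFlat_closure _
    apply flat_eq M h3 h1 (by simpa using hx)
    have e1 : rkn M S = 1 := by rw [← rkn_eq_iff]; exact_mod_cast h2
    have e2 : rkn M {x} = 1 := by
      rw [← rkn_eq_iff, hi.eRk_eq_encard, Set.encard_singleton]; rfl
    omega
  · rintro ⟨x, hx, rfl⟩
    have hi : M.Indep {x} := by simpa using hs x hx x hx
    refine ⟨?_, by rw [hi.eRk_eq_encard, Set.encard_singleton]⟩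
    rw [← simple_closure M hs hx]
    exact M.isFlat_closure _

lemma simple_ncard (hs : ∀ x ∈ M.E, ∀ y ∈ M.E, M.Indep {x, y}) :
    {x : Set α | M.IsFlat x ∧ M.eRk x = 1}.ncard = M.E.ncard := by
  have : {x : Set α | M.IsFlat x ∧ M.eRk x = 1} = (fun x : α => ({x} : Set α)) '' M.E := by
    ext S
    rw [Set.mem_ofPred_eq, simple_point M hs S]
    rfl
  rw [this, Set.ncard_image_of_injective _ Set.singleton_injective]

lemma simple_pts (hs : ∀ x ∈ M.E, ∀ y ∈ M.E, M.Indep {x, y}) {K : Set α} (hK : M.IsFlat K) :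
    {x : Set α | M.IsFlat x ∧ M.eRk x = 1 ∧ x ⊆ K}.ncard = K.ncard := by
  have : {x : Set α | M.IsFlat x ∧ M.eRk x = 1 ∧ x ⊆ K} = (fun x : α => ({x} : Set α)) '' K := by
    ext S
    rw [Set.mem_ofPred_eq, ← and_assoc, simple_point M hs S, Set.mem_image]
    constructor
    · rintro ⟨⟨x, _, rfl⟩, h⟩
      exact ⟨x, by simpa using h, rfl⟩
    · rintro ⟨x, hx, rfl⟩
      exact ⟨⟨x, hK.subset_ground hx, rfl⟩, by simpa using hx⟩
  rw [this, Set.ncard_image_of_injective _ Set.singleton_injective]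

/-- **points, lines and planes of a finite simple matroid** -/
theorem plp_simple (hs : ∀ x ∈ M.E, ∀ y ∈ M.E, M.Indep {x, y}) (hr : 3 ≤ M.eRank) :
    (3 : ℝ) ≤ M.E.ncard ∧
    3 * (M.E.ncard : ℝ) * ((M.E.ncard : ℝ) - 1) / (2 * ((M.E.ncard : ℝ) - 2)) *
      ({p : Set α | M.IsFlat p ∧ M.eRk p = 3}.ncard : ℝ) ≤
        ({l : Set α | M.IsFlat l ∧ M.eRk l = 2}.ncard : ℝ) ^ 2 ∧
    (({l : Set α | M.IsFlat l ∧ M.eRk l = 2}.ncard : ℝ) ^ 2 =
      3 * (M.E.ncard : ℝ) * ((M.E.ncard : ℝ) - 1) / (2 * ((M.E.ncard : ℝ) - 2)) *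
      ({p : Set α | M.IsFlat p ∧ M.eRk p = 3}.ncard : ℝ) →
      ∀ p : Set α, M.IsFlat p → M.eRk p = 3 → p.ncard = 3) := by
  have h := plp M hr
  rw [simple_ncard M hs] at h
  refine ⟨h.1, h.2.1, fun heq p hp hp3 => ?_⟩
  rw [← simple_pts M hs hp]
  exact h.2.2 heq p hp hp3

end Pool.Agent.K1H42.PLP
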