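import Pool.Agent.K1H42.PLP.Core

/-!
# Points, lines and planes: the global inequality
-/

set_option autoImplicit false
set_option linter.unusedSectionVars false

namespace Pool.Agent.K1H42.PLP

open Finset Pool.Agent.Helper123.PLP

variable {P : Type*} [Fintype P] [DecidableEq P] (G : Geo P)

lemma mean_add (d e : P → ℝ) (l : Finset P) : mean (d + e) l = mean d l + mean e l := by
  unfold mean
  simp only [Pi.add_apply, sum_add_distrib]
  ring

lemma mean_smul (c : ℝ) (d : P → ℝ) (l : Finset P) : mean (c • d) l = c * mean d l := by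
  unfold mean
  simp only [Pi.smul_apply, smul_eq_mul, ← mul_sum]
  ring

/-- the Laplacian plus the all-one matrix -/
noncomputable def lapJ : (P → ℝ) →ₗ[ℝ] (P → ℝ) where
  toFun d := fun x => (∑ l ∈ G.Lv x, (d x - mean d l)) + ∑ y, d y
  map_add' d e := by
    funext x
    simp only [Pi.add_apply, mean_add, sum_add_distrib, sum_sub_distrib]
    ring
  map_smul' c d := by
    funext x
    simp only [Pi.smul_apply, smul_eq_mul, mean_smul, RingHom.id_apply, mul_add, mul_sum]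
    congr 1
    apply sum_congr rfl
    intro l _
    ring

lemma lapJ_apply (d : P → ℝ) (x : P) :
    lapJ G d x = (∑ l ∈ G.Lv x, (d x - mean d l)) + ∑ y, d y := rfl

lemma sum_lap (d : P → ℝ) : ∑ x, ∑ l ∈ G.Lv x, (d x - mean d l) = 0 := by
  rw [swap_all G (fun x l => d x - mean d l)]
  apply sum_eq_zero
  intro l hl
  exact sum_sub_mean G d hl

lemma quad_lap (d : P → ℝ) : ∑ x, d x * ∑ l ∈ G.Lv x, (d x - mean d l) =
    ∑ l ∈ G.L, ∑ x ∈ l, (d x - mean d l) ^ 2 := by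
  simp only [mul_sum]
  rw [swap_all G (fun x l => d x * (d x - mean d l))]
  apply sum_congr rfl
  intro l hl
  have h := sum_sub_mean G d hl
  have : ∑ x ∈ l, (d x - mean d l) ^ 2 = ∑ x ∈ l, d x * (d x - mean d l) -
      mean d l * ∑ x ∈ l, (d x - mean d l) := by
    rw [mul_sum, ← sum_sub_distrib]
    apply sum_congr rfl
    intro x _
    ring
  rw [this, h]
  ring

lemma lapJ_inj [Nonempty P] : Function.Injective (lapJ G) := by
  rw [injective_iff_map_eq_zero]
  intro d hd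
  have h1 : ∑ x, d x * lapJ G d x = 0 := by rw [hd]; simp
  simp only [lapJ_apply, mul_add, sum_add_distrib] at h1
  rw [quad_lap, ← sum_mul] at h1
  have h2 : 0 ≤ ∑ l ∈ G.L, ∑ x ∈ l, (d x - mean d l) ^ 2 :=
    sum_nonneg fun l _ => sum_nonneg fun x _ => sq_nonneg _
  have h3 : 0 ≤ (∑ x, d x) * ∑ y, d y := mul_self_nonneg _
  have h4 : ∑ l ∈ G.L, ∑ x ∈ l, (d x - mean d l) ^ 2 = 0 := by linarith
  have h5 : (∑ x, d x) = 0 := by
    have : (∑ x, d x) * ∑ y, d y = 0 := by linarith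
    exact mul_self_eq_zero.mp this
  have h6 : ∀ x y : P, d x = d y := by
    intro x y
    by_cases hxy : x = y
    · rw [hxy]
    · obtain ⟨l, hl, hx, hy⟩ := G.ex_line x y hxy
      have h7 := (sum_eq_zero_iff_of_nonneg (fun l _ => sum_nonneg fun x _ => sq_nonneg _)).mp h4 l hl
      have h8 := (sum_eq_zero_iff_of_nonneg (fun x _ => sq_nonneg _)).mp h7
      have hx' := pow_eq_zero_iff (two_ne_zero) |>.mp (h8 x hx)
      have hy' := pow_eq_zero_iff (two_ne_zero) |>.mp (h8 y hy)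
      linarith
  funext x
  have h9 : ∑ y, d y = (Fintype.card P : ℝ) * d x := by
    rw [sum_congr rfl (fun y _ => h6 y x), sum_const, nsmul_eq_mul, card_univ]
  rw [h5] at h9
  have h10 : (Fintype.card P : ℝ) ≠ 0 := by
    exact_mod_cast Fintype.card_ne_zero
  rcases mul_eq_zero.mp h9.symm with h | h
  · exact absurd h h10
  · simpa using h

/-- the Laplacian is onto the functions with sum zero -/
lemma lap_solve [Nonempty P] (c : P → ℝ) (hc : ∑ x, c x = 0) :
    ∃ d : P → ℝ, ∀ x, ∑ l ∈ G.Lv x, (d x - mean d l) = c x := by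
  have hs : Function.Surjective (lapJ G) := LinearMap.injective_iff_surjective.mp (lapJ_inj G)
  obtain ⟨d, hd⟩ := hs c
  have h1 : ∑ x, lapJ G d x = 0 := by rw [hd, hc]
  simp only [lapJ_apply, sum_add_distrib] at h1
  rw [sum_lap, zero_add, sum_const, nsmul_eq_mul, card_univ] at h1
  have h10 : (Fintype.card P : ℝ) ≠ 0 := by
    exact_mod_cast Fintype.card_ne_zero
  have h2 : ∑ y, d y = 0 := by
    rcases mul_eq_zero.mp h1 with h | h
    · exact absurd h h10
    · exact h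
  refine ⟨d, fun x => ?_⟩
  have := congrFun hd x
  rw [lapJ_apply, h2, add_zero] at this
  exact this

lemma sum_inv_card : ∑ x, ∑ l ∈ G.Lv x, (1 : ℝ) / (l.card : ℝ) = (G.L.card : ℝ) := by
  rw [swap_all G (fun _ l => (1 : ℝ) / (l.card : ℝ))]
  have : ∀ l ∈ G.L, ∑ x ∈ l, (1 : ℝ) / (l.card : ℝ) = 1 := by
    intro l hl
    have h0 := card_pos' G hl
    rw [sum_const, nsmul_eq_mul]
    field_simp
  rw [sum_congr rfl this, sum_const, nsmul_eq_mul, mul_one]

/-- there are weights with constant point sums -/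
lemma exists_d [Nonempty P] : ∃ d : P → ℝ, ∀ x,
    ∑ l ∈ G.Lv x, wt d x l = (G.L.card : ℝ) / Fintype.card P := by
  have h10 : (Fintype.card P : ℝ) ≠ 0 := by
    exact_mod_cast Fintype.card_ne_zero
  obtain ⟨d, hd⟩ := lap_solve G
    (fun x => (G.L.card : ℝ) / Fintype.card P - ∑ l ∈ G.Lv x, (1 : ℝ) / (l.card : ℝ)) (by
      rw [sum_sub_distrib, sum_inv_card, sum_const, nsmul_eq_mul, card_univ]
      field_simp
      ring)
  refine ⟨d, fun x => ?_⟩
  unfold wt
  rw [sum_add_distrib, hd x]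
  ring

/-- the decomposition of the square sums over the planes -/
lemma decomp (d : P → ℝ) :
    ∑ x, (∑ l ∈ G.Lv x, wt d x l) ^ 2 =
      (∑ l ∈ G.L, ∑ x ∈ l, wt d x l ^ 2) + ∑ h ∈ G.H, FF G d h := by
  have e1 : ∀ x, (∑ l ∈ G.Lv x, wt d x l) ^ 2 = (∑ l ∈ G.Lv x, wt d x l ^ 2) +
      ∑ h ∈ G.Hv x, ((∑ l ∈ inn (G.Lv x) h, wt d x l) ^ 2 -
        ∑ l ∈ inn (G.Lv x) h, wt d x l ^ 2) := by
    intro x
    have := G.pairs x (G.Lv x) (G.Lv x) (Subset.refl _) (Subset.refl _) (wt d x) (wt d x)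
    rw [inter_self] at this
    simp only [← sq] at this
    rw [this]
    ring
  rw [sum_congr rfl (fun x _ => e1 x), sum_add_distrib, swap_all G (fun x l => wt d x l ^ 2)]
  congr 1
  unfold FF
  apply Finset.sum_comm'
  intro x h
  simp only [G.mem_Hv, mem_univ, true_and]
  tauto

lemma inv_le {l : Finset P} (hl : l ∈ G.L) (d : P → ℝ) :
    1 / (l.card : ℝ) ≤ ∑ x ∈ l, wt d x l ^ 2 := by
  have h0 := card_pos' G hl
  have h1 := sq_sum_le_card_mul_sum_sq (s := l) (f := fun x => wt d x l)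
  rw [sum_wt G d hl] at h1
  rw [div_le_iff₀ h0]
  linarith

lemma sum_card_bb_univ : ∑ l ∈ G.L, (l.card : ℝ) * bb l =
    (Fintype.card P : ℝ) * ((Fintype.card P : ℝ) - 1) := by
  have h1 : ∑ l ∈ G.L, (l.card : ℝ) * bb l = ∑ l ∈ G.L, ∑ x ∈ l, bb l := by
    apply sum_congr rfl
    intro l _
    rw [sum_const, nsmul_eq_mul]
  rw [h1, ← swap_all G (fun _ l => bb l), sum_congr rfl (fun x _ => G.sum_bb_univ x), sum_const,
    nsmul_eq_mul, card_univ]

lemma inv_sum_ge (hn : 3 ≤ Fintype.card P) :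
    (G.L.card : ℝ) ^ 2 / ((Fintype.card P : ℝ) * ((Fintype.card P : ℝ) - 1)) ≤
      ∑ l ∈ G.L, 1 / (l.card : ℝ) := by
  have hn' : (3 : ℝ) ≤ Fintype.card P := by exact_mod_cast hn
  have h1 := Finset.sq_sum_div_le_sum_sq_div G.L (fun _ => (1 : ℝ)) (g := fun l => (l.card : ℝ))
    (fun l hl => card_pos' G hl)
  simp only [sum_const, nsmul_eq_mul, mul_one, one_pow] at h1
  refine le_trans ?_ h1
  have h2 : ∑ l ∈ G.L, (l.card : ℝ) ≤ (Fintype.card P : ℝ) * ((Fintype.card P : ℝ) - 1) := by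
    rw [← sum_card_bb_univ G]
    apply sum_le_sum
    intro l hl
    have := G.bb_ge hl
    have := card_pos' G hl
    nlinarith
  have h3 : 0 < ∑ l ∈ G.L, (l.card : ℝ) := by
    obtain ⟨x, y, hxy⟩ := Fintype.exists_pair_of_one_lt_card (α := P) (by omega)
    obtain ⟨l, hl, -, -⟩ := G.ex_line x y hxy
    exact sum_pos (fun l hl => card_pos' G hl) ⟨l, hl⟩
  exact div_le_div_of_nonneg_left (sq_nonneg _) h3 h2

/-- **points, lines and planes**, before clearing denominators -/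
theorem main_aux (hn : 3 ≤ Fintype.card P) :
    3 / 2 * (G.H.card : ℝ) + (G.L.card : ℝ) ^ 2 / ((Fintype.card P : ℝ) * ((Fintype.card P : ℝ) - 1))
      ≤ (G.L.card : ℝ) ^ 2 / Fintype.card P ∧
    ((∃ h ∈ G.H, 4 ≤ h.card) →
      3 / 2 * (G.H.card : ℝ) + (G.L.card : ℝ) ^ 2 / ((Fintype.card P : ℝ) * ((Fintype.card P : ℝ) - 1))
      < (G.L.card : ℝ) ^ 2 / Fintype.card P) := by
  have hne : Nonempty P := Fintype.card_pos_iff.mp (by omega)
  have hn' : (3 : ℝ) ≤ Fintype.card P := by exact_mod_cast hn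
  obtain ⟨d, hd⟩ := exists_d G
  have h1 := decomp G d
  have h2 : ∑ x, (∑ l ∈ G.Lv x, wt d x l) ^ 2 = (G.L.card : ℝ) ^ 2 / Fintype.card P := by
    rw [sum_congr rfl (fun x _ => by rw [hd x]), sum_const, nsmul_eq_mul, card_univ]
    field_simp
  have h3 : ∑ l ∈ G.L, 1 / (l.card : ℝ) ≤ ∑ l ∈ G.L, ∑ x ∈ l, wt d x l ^ 2 :=
    sum_le_sum fun l hl => inv_le G hl d
  have h4 := inv_sum_ge G hn
  have h5 : 3 / 2 * (G.H.card : ℝ) = ∑ h ∈ G.H, (3 / 2 : ℝ) := by
    rw [sum_const, nsmul_eq_mul]; ring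
  constructor
  · have h6 : ∑ h ∈ G.H, (3 / 2 : ℝ) ≤ ∑ h ∈ G.H, FF G d h :=
      sum_le_sum fun h hh => local_ge G hh d
    linarith
  · rintro ⟨h0, hh0, h04⟩
    have h6 : ∑ h ∈ G.H, (3 / 2 : ℝ) < ∑ h ∈ G.H, FF G d h :=
      sum_lt_sum (fun h hh => local_ge G hh d) ⟨h0, hh0, local_gt G hh0 h04 d⟩
    linarith

/-- **points, lines and planes** -/
theorem main_geo (hn : 3 ≤ Fintype.card P) :
    3 * (Fintype.card P : ℝ) * ((Fintype.card P : ℝ) - 1) / (2 * ((Fintype.card P : ℝ) - 2)) *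
      (G.H.card : ℝ) ≤ (G.L.card : ℝ) ^ 2 ∧
    ((∃ h ∈ G.H, 4 ≤ h.card) →
      3 * (Fintype.card P : ℝ) * ((Fintype.card P : ℝ) - 1) / (2 * ((Fintype.card P : ℝ) - 2)) *
      (G.H.card : ℝ) < (G.L.card : ℝ) ^ 2) := by
  have hn' : (3 : ℝ) ≤ Fintype.card P := by exact_mod_cast hn
  obtain ⟨h1, h2⟩ := main_aux G hn
  set n : ℝ := (Fintype.card P : ℝ) with hndef
  set t : ℝ := (G.L.card : ℝ) with ht
  set q : ℝ := (G.H.card : ℝ) with hq
  have hn0 : 0 < n := by linarith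
  have hn1 : 0 < n - 1 := by linarith
  have hn2 : 0 < n - 2 := by linarith
  have e : t ^ 2 / n - t ^ 2 / (n * (n - 1)) = t ^ 2 * (n - 2) / (n * (n - 1)) := by
    field_simp
    ring
  have e2 : 3 * n * (n - 1) / (2 * (n - 2)) * q = (3 / 2 * q) * (n * (n - 1) / (n - 2)) := by
    field_simp
  have e3 : t ^ 2 = (t ^ 2 * (n - 2) / (n * (n - 1))) * (n * (n - 1) / (n - 2)) := by
    field_simp
  have hpos : 0 < n * (n - 1) / (n - 2) := by positivity
  constructor
  · rw [e2, e3]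
    apply mul_le_mul_of_nonneg_right _ hpos.le
    linarith
  · intro h
    rw [e2, e3]
    apply mul_lt_mul_of_pos_right _ hpos
    have := h2 h
    linarith

end Pool.Agent.K1H42.PLP
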